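import Pool.Agent.Helper53.AE.GoalsA
import Pool.Agent.Helper53.AE.MPR

/-!
Packet AE-HER (helper4): hereditary subalgebras of locally finite-dimensional ideals.
-/

set_option autoImplicit false

open scoped ComplexOrder Topology
open Filter TopologicalSpace Pool.Agent.Helper53.AE

namespace Pool.Agent.Helper4.AE.HER

theorem apx {M : Type} [CStarAlgebra M] (H : NonUnitalStarSubalgebra ℂ M)
    (hH : IsClosed (H : Set M)) (T : Finset M) (hT : ∀ x ∈ T, x ∈ H) (η : ℝ) (hη : 0 < η) :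
    ∃ e ∈ H, star e = e ∧ ‖e‖ ≤ 1 ∧ ∀ x ∈ T, ‖x - e * x‖ < η ∧ ‖x - x * e‖ < η := by
  have := hH
  let _ : PartialOrder H := CStarAlgebra.spectralOrder H
  have : StarOrderedRing H := CStarAlgebra.spectralOrderedRing H
  have hl := CStarAlgebra.increasingApproximateUnit H
  have hne : (CStarAlgebra.approximateUnit H).NeBot := hl.neBot
  have h1 : ∀ᶠ e in CStarAlgebra.approximateUnit H, ‖e‖ ≤ 1 := hl.eventually_norm
  have h2 : ∀ᶠ e in CStarAlgebra.approximateUnit H, star e = e := hl.eventually_star_eq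
  have h3 : ∀ᶠ e : H in CStarAlgebra.approximateUnit H, ∀ x ∈ T,
      ‖x - (e : M) * x‖ < η ∧ ‖x - x * (e : M)‖ < η := by
    rw [Filter.eventually_all_finset]
    intro x hx
    have h4 := (hl.tendsto_mul_left ⟨x, hT x hx⟩).eventually (Metric.ball_mem_nhds _ hη)
    have h5 := (hl.tendsto_mul_right ⟨x, hT x hx⟩).eventually (Metric.ball_mem_nhds _ hη)
    filter_upwards [h4, h5] with e h6 h7
    have h8 : dist (e * ⟨x, hT x hx⟩ : H) ⟨x, hT x hx⟩ < η := h7
    have h9 : dist ((⟨x, hT x hx⟩ : H) * e) ⟨x, hT x hx⟩ < η := h6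
    rw [dist_comm, dist_eq_norm] at h8 h9
    exact ⟨h8, h9⟩
  obtain ⟨e, h4, h5, h6⟩ := (h1.and (h2.and h3)).exists
  exact ⟨e, e.2, congrArg Subtype.val h5, h4, h6⟩

theorem spec {A : Type} [NonUnitalCStarAlgebra A] [FiniteDimensional ℂ A] (a : A)
    (ha : star a = a) : ∃ p c : A, Pj p ∧ star c = c ∧ ‖c‖ ≤ 2 ∧ p = a * (c * c) * a ∧
      p * a = a * p ∧ ‖a - p * a‖ ≤ 1 / 2 := by
  classical
  have hsa : IsSelfAdjoint a := ha
  have hfin := MPR.finite_quasi a
  have hcont : ∀ f : ℝ → ℝ, ContinuousOn f (quasispectrum ℝ a) := fun f =>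
    hfin.continuousOn f
  let f : ℝ → ℝ := fun t => if 1 / 2 ≤ |t| then 1 else 0
  let g : ℝ → ℝ := fun t => if 1 / 2 ≤ |t| then t⁻¹ else 0
  have h00 : ¬ (1 / 2 : ℝ) ≤ |(0 : ℝ)| := by rw [abs_zero]; norm_num
  have hf0 : f 0 = 0 := if_neg h00
  have hg0 : g 0 = 0 := if_neg h00
  have hne : ∀ t : ℝ, 1 / 2 ≤ |t| → t ≠ 0 := by
    intro t ht h0
    rw [h0] at ht
    exact h00 ht
  have hcs : IsSelfAdjoint (cfcₙ g a) := cfcₙ_predicate _ a
  have hps : IsSelfAdjoint (cfcₙ f a) := cfcₙ_predicate _ a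
  have hid : cfcₙ (fun t : ℝ => t) a = a := cfcₙ_id' ℝ a hsa
  have hpa : cfcₙ f a * a = cfcₙ (fun t => f t * t) a := by
    rw [cfcₙ_mul f (fun t : ℝ => t) a (hcont _) hf0 (hcont _) rfl, hid]
  have hap : a * cfcₙ f a = cfcₙ (fun t => t * f t) a := by
    rw [cfcₙ_mul (fun t : ℝ => t) f a (hcont _) rfl (hcont _) hf0, hid]
  refine ⟨cfcₙ f a, cfcₙ g a, ⟨hps, ?_⟩, hcs, ?_, ?_, ?_, ?_⟩
  · rw [← cfcₙ_mul f f a (hcont f) hf0 (hcont f) hf0]
    refine cfcₙ_congr fun t _ => ?_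
    show (if 1 / 2 ≤ |t| then (1 : ℝ) else 0) * (if 1 / 2 ≤ |t| then 1 else 0) =
      if 1 / 2 ≤ |t| then 1 else 0
    split_ifs <;> simp
  · refine norm_cfcₙ_le fun t _ => ?_
    show ‖(if 1 / 2 ≤ |t| then t⁻¹ else 0 : ℝ)‖ ≤ 2
    split_ifs with h
    · rw [Real.norm_eq_abs, abs_inv]
      rw [show (2 : ℝ) = (1 / 2)⁻¹ by norm_num]
      exact inv_anti₀ (by norm_num) h
    · rw [norm_zero]
      norm_num
  · have h1 : a * (cfcₙ g a * cfcₙ g a) * a =
        cfcₙ (fun t => t * (g t * g t) * t) a := by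
      rw [cfcₙ_mul (fun t : ℝ => t * (g t * g t)) (fun t => t) a (hcont _) (by simp) (hcont _) rfl,
        cfcₙ_mul (fun t : ℝ => t) (fun t => g t * g t) a (hcont _) rfl (hcont _) (by simp [hg0]),
        cfcₙ_mul g g a (hcont g) hg0 (hcont g) hg0, hid]
    rw [h1]
    refine cfcₙ_congr fun t _ => ?_
    show (if 1 / 2 ≤ |t| then (1 : ℝ) else 0) =
      t * ((if 1 / 2 ≤ |t| then t⁻¹ else 0) * (if 1 / 2 ≤ |t| then t⁻¹ else 0)) * t
    split_ifs with h
    · have := hne t h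
      field_simp
    · simp
  · rw [hpa, hap]
    refine cfcₙ_congr fun t _ => ?_
    show f t * t = t * f t
    ring
  · have h1 : a - cfcₙ f a * a = cfcₙ (fun t => t - f t * t) a := by
      rw [cfcₙ_sub (fun t : ℝ => t) (fun t => f t * t) a (hcont _) rfl (hcont _) (by simp), hid,
        hpa]
    rw [h1]
    refine norm_cfcₙ_le fun t _ => ?_
    show ‖t - (if 1 / 2 ≤ |t| then (1 : ℝ) else 0) * t‖ ≤ 1 / 2
    split_ifs with h
    · rw [one_mul, sub_self, norm_zero]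
      norm_num
    · rw [zero_mul, sub_zero, Real.norm_eq_abs]
      push Not at h
      exact h.le

theorem norm_le_one {M : Type} [CStarAlgebra M] {q : M} (h : Pj q) : ‖q‖ ≤ 1 := by
  have h1 : ‖q‖ * ‖q‖ = ‖q‖ := by
    rw [← CStarRing.norm_star_mul_self, h.1, h.2]
  by_contra hc
  push Not at hc
  nlinarith [norm_nonneg q]

theorem pj_compl {M : Type} [CStarAlgebra M] {q : M} (h : Pj q) : Pj (1 - q) := by
  refine ⟨?_, ?_⟩
  · rw [star_sub, star_one, h.1]
  · rw [mul_sub, mul_one, sub_mul, one_mul, h.2, sub_self, sub_zero]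

theorem compl_le {M : Type} [CStarAlgebra M] {q : M} (h : Pj q) (z : M) : ‖z - q * z‖ ≤ ‖z‖ := by
  have h1 : z - q * z = (1 - q) * z := by rw [sub_mul, one_mul]
  rw [h1]
  refine (norm_mul_le _ _).trans ?_
  have := norm_le_one (pj_compl h)
  nlinarith [norm_nonneg z]

theorem core {M : Type} [CStarAlgebra M] {p e u v : M} {η : ℝ} (hp : Pj p)
    (hcomm : p * v = v * p) (hhalf : ‖v - p * v‖ ≤ 1 / 2) (h1 : ‖e - u * e‖ ≤ η)
    (h2 : ‖u - v‖ ≤ η) (he : ‖e‖ ≤ 1) : ‖e - p * e‖ ≤ 4 * η := by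
  have hη : 0 ≤ η := (norm_nonneg _).trans h2
  have hz : (v - p * v) * (p * e) = 0 := by
    have h3 : (v - p * v) * p = 0 := by
      rw [sub_mul, hcomm, mul_assoc, hp.2, sub_self]
    rw [← mul_assoc, h3, zero_mul]
  have hid : e - p * e = ((e - u * e) - p * (e - u * e)) + (((u - v) * e) - p * ((u - v) * e)) +
      (v - p * v) * (e - p * e) := by
    rw [mul_sub (v - p * v), hz, sub_zero]
    noncomm_ring
  have h3 := compl_le hp (e - u * e)
  have h4 := compl_le hp ((u - v) * e)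
  have h5 : ‖(u - v) * e‖ ≤ η := by
    refine (norm_mul_le _ _).trans ?_
    calc ‖u - v‖ * ‖e‖ ≤ η * 1 := mul_le_mul h2 he (norm_nonneg _) hη
      _ = η := mul_one _
  have h6 : ‖(v - p * v) * (e - p * e)‖ ≤ 1 / 2 * ‖e - p * e‖ := by
    refine (norm_mul_le _ _).trans ?_
    exact mul_le_mul_of_nonneg_right hhalf (norm_nonneg _)
  have h7 : ‖e - p * e‖ ≤ η + η + 1 / 2 * ‖e - p * e‖ := by
    conv_lhs => rw [hid]
    refine (norm_add_le _ _).trans (add_le_add ((norm_add_le _ _).trans (add_le_add ?_ ?_)) h6)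
    · exact h3.trans h1
    · exact h4.trans h5
  linarith

theorem near {M : Type} [CStarAlgebra M] {p e x : M} {η K : ℝ} (hp : Pj p) (hK : ‖x‖ ≤ K)
    (he : ‖e - p * e‖ ≤ 4 * η) (hx : ‖x - e * x‖ ≤ η) : ‖x - p * x‖ ≤ η + 4 * η * K := by
  have h0 : x - p * x = ((x - e * x) - p * (x - e * x)) + (e - p * e) * x := by
    noncomm_ring
  rw [h0]
  refine (norm_add_le _ _).trans (add_le_add ((compl_le hp _).trans hx) ?_)
  refine (norm_mul_le _ _).trans ?_
  exact mul_le_mul he hK (norm_nonneg _) ((norm_nonneg _).trans he)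

/-- the algebra `w p F p w*` -/
def cut {M : Type} [CStarAlgebra M] (F : NonUnitalStarSubalgebra ℂ M) (p w : M) (hp : Pj p)
    (hpF : p ∈ F) (hw : star w * w = 1) : NonUnitalStarSubalgebra ℂ M where
  carrier := {m | ∃ z ∈ F, m = w * (p * z * p) * star w}
  add_mem' := by
    rintro _ _ ⟨a, ha, rfl⟩ ⟨b, hb, rfl⟩
    exact ⟨a + b, F.add_mem ha hb, by noncomm_ring⟩
  zero_mem' := ⟨0, F.zero_mem, by rw [mul_zero, zero_mul, mul_zero, zero_mul]⟩
  mul_mem' := by
    rintro _ _ ⟨a, ha, rfl⟩ ⟨b, hb, rfl⟩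
    refine ⟨a * p * b, F.mul_mem (F.mul_mem ha hpF) hb, ?_⟩
    calc w * (p * a * p) * star w * (w * (p * b * p) * star w)
        = w * (p * a * p) * (star w * w) * (p * b * p) * star w := by noncomm_ring
      _ = w * (p * a * (p * p) * b * p) * star w := by
          rw [hw]
          noncomm_ring
      _ = w * (p * (a * p * b) * p) * star w := by
          rw [hp.2]
          noncomm_ring
  smul_mem' := by
    rintro c _ ⟨a, ha, rfl⟩
    refine ⟨c • a, SMulMemClass.smul_mem c ha, ?_⟩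
    rw [mul_smul_comm, smul_mul_assoc, mul_smul_comm, smul_mul_assoc]
  star_mem' := by
    rintro _ ⟨a, ha, rfl⟩
    refine ⟨star a, star_mem ha, ?_⟩
    rw [star_mul, star_mul, star_mul, star_mul, star_star, hp.1]
    noncomm_ring

theorem cut_fin {M : Type} [CStarAlgebra M] (F : NonUnitalStarSubalgebra ℂ M) (p w : M)
    (hp : Pj p) (hpF : p ∈ F) (hw : star w * w = 1) (hF : FiniteDimensional ℂ F) :
    FiniteDimensional ℂ (cut F p w hp hpF hw) := by
  have := hF
  let φ : F →ₗ[ℂ] cut F p w hp hpF hw :=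
    { toFun := fun z => ⟨w * (p * (z : M) * p) * star w, z, z.2, rfl⟩
      map_add' := fun a b => by
        apply Subtype.ext
        show w * (p * ((a : M) + b) * p) * star w =
          w * (p * (a : M) * p) * star w + w * (p * (b : M) * p) * star w
        noncomm_ring
      map_smul' := fun c a => by
        apply Subtype.ext
        show w * (p * (c • (a : M)) * p) * star w = c • (w * (p * (a : M) * p) * star w)
        rw [mul_smul_comm, smul_mul_assoc, mul_smul_comm, smul_mul_assoc] }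
  refine Module.Finite.of_surjective φ ?_
  rintro ⟨_, z, hz, rfl⟩
  exact ⟨⟨z, hz⟩, rfl⟩

theorem est1 {M : Type} [CStarAlgebra M] {p e₂ e' c : M} {η : ℝ} (hη : 0 < η) (hη' : η ≤ 1 / 500)
    (h2 : ‖e₂‖ ≤ 1) (h3 : ‖e₂ - e'‖ ≤ η) (hc : ‖c‖ ≤ 2) (hpe : p = e' * (c * c) * e') :
    ‖e₂ * (c * c) * e₂ - p‖ ≤ 12 * η := by
  have h4 : ‖c * c‖ ≤ 4 := by
    refine (norm_mul_le _ _).trans ?_
    nlinarith [norm_nonneg c]
  have h5 : ‖e'‖ ≤ 2 := by
    have : e' = e₂ - (e₂ - e') := by abel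
    rw [this]
    refine (norm_sub_le _ _).trans ?_
    linarith
  have h6 : e₂ * (c * c) * e₂ - p = (e₂ - e') * (c * c) * e₂ + e' * (c * c) * (e₂ - e') := by
    rw [hpe]
    noncomm_ring
  rw [h6]
  have h7 : ‖(e₂ - e') * (c * c) * e₂‖ ≤ 4 * η := by
    refine (norm_mul_le _ _).trans ?_
    have h8 : ‖(e₂ - e') * (c * c)‖ ≤ η * 4 :=
      (norm_mul_le _ _).trans (mul_le_mul h3 h4 (norm_nonneg _) hη.le)
    calc ‖(e₂ - e') * (c * c)‖ * ‖e₂‖ ≤ (η * 4) * 1 :=
          mul_le_mul h8 h2 (norm_nonneg _) (by positivity)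
      _ = 4 * η := by ring
  have h9 : ‖e' * (c * c) * (e₂ - e')‖ ≤ 8 * η := by
    refine (norm_mul_le _ _).trans ?_
    have h8 : ‖e' * (c * c)‖ ≤ 2 * 4 :=
      (norm_mul_le _ _).trans (mul_le_mul h5 h4 (norm_nonneg _) (by norm_num))
    calc ‖e' * (c * c)‖ * ‖e₂ - e'‖ ≤ (2 * 4) * η :=
          mul_le_mul h8 h3 (norm_nonneg _) (by norm_num)
      _ = 8 * η := by ring
  refine (norm_add_le _ _).trans ?_
  linarith

theorem est2 {M : Type} [CStarAlgebra M] {p y : M} {η : ℝ} (hη : 0 < η) (hη' : η ≤ 1 / 500)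
    (hp : Pj p) (h : ‖y - p‖ ≤ 12 * η) : ‖y * y - y‖ ≤ 48 * η := by
  have hp1 := norm_le_one hp
  have hy : ‖y‖ ≤ 2 := by
    have : y = (y - p) + p := by abel
    rw [this]
    refine (norm_add_le _ _).trans ?_
    linarith
  have h1 : y * y - y = (y - p) * y + p * (y - p) - (y - p) := by
    have h2 : p * (y - p) = p * y - p := by rw [mul_sub, hp.2]
    rw [h2, sub_mul]
    abel
  rw [h1]
  refine (norm_sub_le _ _).trans ?_
  have h3 : ‖(y - p) * y‖ ≤ 12 * η * 2 :=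
    (norm_mul_le _ _).trans (mul_le_mul h hy (norm_nonneg _) (by positivity))
  have h4 : ‖p * (y - p)‖ ≤ 1 * (12 * η) :=
    (norm_mul_le _ _).trans (mul_le_mul hp1 h (norm_nonneg _) (by norm_num))
  have h5 := norm_add_le ((y - p) * y) (p * (y - p))
  linarith

theorem est3 {M : Type} [CStarAlgebra M] {p w x x' : M} {η K : ℝ} (hη : 0 < η)
    (hη' : η ≤ 1 / 500) (hK : 0 ≤ K)
    (hp : Pj p) (hw : star w * w = 1) (hx : ‖x‖ ≤ K) (hl : ‖x - p * x‖ ≤ η + 4 * η * K)
    (hr : ‖x - x * p‖ ≤ η + 4 * η * K) (hx' : ‖x - x'‖ ≤ η) (hw1 : ‖w - 1‖ ≤ 432 * η) :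
    ‖x - w * (p * x' * p) * star w‖ ≤ 900 * (K + 1) * η := by
  have hp1 := norm_le_one hp
  have hws : ‖star w‖ = ‖w‖ := norm_star w
  have hw2 : ‖w‖ ≤ 1 := by
    have h1 : ‖w‖ * ‖w‖ = ‖(1 : M)‖ := by rw [← CStarRing.norm_star_mul_self, hw]
    have h2 : ‖(1 : M)‖ ≤ 1 := norm_le_one ⟨star_one M, one_mul 1⟩
    nlinarith [norm_nonneg w]
  have hx1 : ‖x'‖ ≤ K + 1 := by
    have : x' = x - (x - x') := by abel
    rw [this]
    refine (norm_sub_le _ _).trans ?_
    linarith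
  have hz : ‖p * x' * p‖ ≤ K + 1 := by
    refine (norm_mul_le _ _).trans ?_
    have h8 : ‖p * x'‖ ≤ 1 * (K + 1) :=
      (norm_mul_le _ _).trans (mul_le_mul hp1 hx1 (norm_nonneg _) (by norm_num))
    calc ‖p * x'‖ * ‖p‖ ≤ (1 * (K + 1)) * 1 :=
          mul_le_mul h8 hp1 (norm_nonneg _) (by positivity)
      _ = K + 1 := by ring
  have hid : x - w * (p * x' * p) * star w = (x - p * x) + p * (x - x * p) +
      p * (x - x') * p - (w - 1) * (p * x' * p) - w * (p * x' * p) * (star (w - 1)) := by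
    rw [star_sub, star_one]
    noncomm_ring
  rw [hid]
  have h1 : ‖p * (x - x * p)‖ ≤ 1 * (η + 4 * η * K) :=
    (norm_mul_le _ _).trans (mul_le_mul hp1 hr (norm_nonneg _) (by norm_num))
  have h2 : ‖p * (x - x') * p‖ ≤ η := by
    refine (norm_mul_le _ _).trans ?_
    have h8 : ‖p * (x - x')‖ ≤ 1 * η :=
      (norm_mul_le _ _).trans (mul_le_mul hp1 hx' (norm_nonneg _) (by norm_num))
    calc ‖p * (x - x')‖ * ‖p‖ ≤ (1 * η) * 1 :=
          mul_le_mul h8 hp1 (norm_nonneg _) (by positivity)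
      _ = η := by ring
  have h3 : ‖(w - 1) * (p * x' * p)‖ ≤ 432 * η * (K + 1) :=
    (norm_mul_le _ _).trans (mul_le_mul hw1 hz (norm_nonneg _) (by positivity))
  have h4 : ‖w * (p * x' * p) * (star (w - 1))‖ ≤ 432 * η * (K + 1) := by
    refine (norm_mul_le _ _).trans ?_
    rw [norm_star]
    have h8 : ‖w * (p * x' * p)‖ ≤ 1 * (K + 1) :=
      (norm_mul_le _ _).trans (mul_le_mul hw2 hz (norm_nonneg _) (by norm_num))
    calc ‖w * (p * x' * p)‖ * ‖w - 1‖ ≤ (1 * (K + 1)) * (432 * η) :=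
          mul_le_mul h8 hw1 (norm_nonneg _) (by positivity)
      _ = 432 * η * (K + 1) := by ring
  have hKη : 0 ≤ K * η := mul_nonneg hK hη.le
  have h5 := norm_sub_le ((x - p * x) + p * (x - x * p) + p * (x - x') * p -
    (w - 1) * (p * x' * p)) (w * (p * x' * p) * (star (w - 1)))
  have h6 := norm_sub_le ((x - p * x) + p * (x - x * p) + p * (x - x') * p)
    ((w - 1) * (p * x' * p))
  have h7 := norm_add_le ((x - p * x) + p * (x - x * p)) (p * (x - x') * p)
  have h8 := norm_add_le (x - p * x) (p * (x - x * p))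
  nlinarith

theorem t (hPRJ : S_PRJ) (hPCL : S_PCL) : S_HER := by
  intro M _ D H hD hL hH hHD hher S ε hS hε
  classical
  have hK : ∀ x ∈ S, ‖x‖ ≤ ∑ x ∈ S, ‖x‖ := fun x hx =>
    Finset.single_le_sum (f := fun x => ‖x‖) (fun i _ => norm_nonneg i) hx
  have hK0 : 0 ≤ ∑ x ∈ S, ‖x‖ := Finset.sum_nonneg fun i _ => norm_nonneg i
  generalize (∑ x ∈ S, ‖x‖) = K at hK hK0
  obtain ⟨η, hη, hη1, hη2⟩ : ∃ η : ℝ, 0 < η ∧ η ≤ 1 / 500 ∧ 900 * (K + 1) * η < ε := by
    refine ⟨min (1 / 500) (ε / (1000 * (K + 1))), ?_, min_le_left _ _, ?_⟩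
    · have : 0 < ε / (1000 * (K + 1)) := by positivity
      exact lt_min (by norm_num) this
    · have h1 : 900 * (K + 1) * min (1 / 500) (ε / (1000 * (K + 1))) ≤
          900 * (K + 1) * (ε / (1000 * (K + 1))) :=
        mul_le_mul_of_nonneg_left (min_le_right _ _) (by positivity)
      have h2 : 900 * (K + 1) * (ε / (1000 * (K + 1))) = 9 / 10 * ε := by
        have : K + 1 ≠ 0 := by positivity
        field_simp
        ring
      rw [h2] at h1
      linarith
  obtain ⟨e, heH, hes, he1, heS⟩ := apx H hH S hS η hη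
  obtain ⟨e₂, he₂H, he₂s, he₂1, he₂S⟩ := apx H hH {e} (by simpa using heH) η hη
  have he₂ := (he₂S e (Finset.mem_singleton_self e)).1
  obtain ⟨F, hF, hFD, hFS⟩ := hL (insert e₂ S) η (by
    intro x hx
    rcases Finset.mem_insert.mp hx with rfl | hx
    · exact hHD he₂H
    · exact hHD (hS x hx)) hη
  obtain ⟨z, hzF, hz⟩ := hFS e₂ (Finset.mem_insert_self _ _)
  have := hF
  have hFc : IsClosed (F : Set M) :=
    Submodule.closed_of_finiteDimensional F.toNonUnitalSubalgebra.toSubmodule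
  have he'F : (1 / 2 : ℂ) • (z + star z) ∈ F :=
    SMulMemClass.smul_mem _ (add_mem hzF (star_mem hzF))
  have he's : star ((1 / 2 : ℂ) • (z + star z)) = (1 / 2 : ℂ) • (z + star z) := by
    rw [star_smul, star_add, star_star, add_comm]
    congr 1
    simp
  have he'd : ‖e₂ - (1 / 2 : ℂ) • (z + star z)‖ ≤ η := by
    have h1 : e₂ - (1 / 2 : ℂ) • (z + star z) =
        (1 / 2 : ℂ) • ((e₂ - z) + star (e₂ - z)) := by
      rw [star_sub, he₂s]
      module
    rw [h1, norm_smul]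
    have h2 : ‖(1 / 2 : ℂ)‖ = 1 / 2 := by simp
    have h3 := norm_add_le (e₂ - z) (star (e₂ - z))
    rw [norm_star] at h3
    rw [h2]
    linarith
  generalize (1 / 2 : ℂ) • (z + star z) = e' at he'F he's he'd
  obtain ⟨p, c, hp, hcs, hc2, hpc, hcomm, hhalf⟩ := spec (A := F) ⟨e', he'F⟩ (Subtype.ext he's)
  have hp' : Pj (p : M) := ⟨congrArg Subtype.val hp.1, congrArg Subtype.val hp.2⟩
  have hcs' : star (c : M) = c := congrArg Subtype.val hcs
  have hc2' : ‖(c : M)‖ ≤ 2 := hc2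
  have hpc' : (p : M) = e' * ((c : M) * c) * e' := congrArg Subtype.val hpc
  have hcomm' : (p : M) * e' = e' * p := congrArg Subtype.val hcomm
  have hhalf' : ‖e' - (p : M) * e'‖ ≤ 1 / 2 := hhalf
  have hpF : (p : M) ∈ F := p.2
  have hcF : (c : M) ∈ F := c.2
  generalize (p : M) = p at hp' hpc' hcomm' hhalf' hpF
  generalize (c : M) = c at hcs' hc2' hpc' hcF
  have hy := est1 hη hη1 he₂1 he'd hc2' hpc'
  have hyy := est2 hη hη1 hp' hy
  have hyH : e₂ * (c * c) * e₂ ∈ H := hher e₂ he₂H (c * c) (mul_mem (hFD hcF) (hFD hcF)) e₂ he₂H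
  have hys : star (e₂ * (c * c) * e₂) = e₂ * (c * c) * e₂ := by
    rw [star_mul, star_mul, star_mul, he₂s, hcs']
    noncomm_ring
  obtain ⟨q, hqH, hq, hqy, -⟩ := hPRJ M H hH _ hyH hys (48 * η) (by linarith) hyy
  have hpq : ‖p - q‖ ≤ 108 * η := by
    have h1 : p - q = -((q - e₂ * (c * c) * e₂) + (e₂ * (c * c) * e₂ - p)) := by abel
    rw [h1, norm_neg]
    refine (norm_add_le _ _).trans ?_
    linarith
  obtain ⟨w, hw1, hw2, hwp, hw3, -⟩ := hPCL M p q hp' hq (by linarith)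
  have hw4 : ‖w - 1‖ ≤ 432 * η := by linarith
  have hep := core hp' hcomm' hhalf' he₂.le he'd he1
  have hpw : p * star w = star w * q := by
    have h1 := congrArg star hwp
    rw [star_mul, star_mul, hp'.1, hq.1] at h1
    exact h1
  refine ⟨cut F p w hp' hpF hw1, cut_fin F p w hp' hpF hw1 hF, ?_, ?_⟩
  · rintro _ ⟨z, hz, rfl⟩
    have h1 : w * (p * z * p) * star w = q * (w * z * star w) * q := by
      calc w * (p * z * p) * star w = (w * p) * z * (p * star w) := by noncomm_ring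
        _ = q * (w * z * star w) * q := by
          rw [hwp, hpw]
          noncomm_ring
    rw [h1]
    exact hher q hqH _ (hD.2 _ _ (hD.2 _ _ (hFD hz)).1).2 q hqH
  · intro x hx
    obtain ⟨x', hx'F, hx'⟩ := hFS x (Finset.mem_insert_of_mem hx)
    refine ⟨w * (p * x' * p) * star w, ⟨x', hx'F, rfl⟩, ?_⟩
    have hl := near hp' (hK x hx) hep (heS x hx).1.le
    have hr0 : ‖star x - e * star x‖ ≤ η := by
      have h1 : star x - e * star x = star (x - x * e) := by
        rw [star_sub, star_mul, hes]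
      rw [h1, norm_star]
      exact (heS x hx).2.le
    have hr1 := near hp' (K := K) (by rw [norm_star]; exact hK x hx) hep hr0
    have hr : ‖x - x * p‖ ≤ η + 4 * η * K := by
      have h1 : x - x * p = star (star x - p * star x) := by
        rw [star_sub, star_mul, star_star, hp'.1]
      rw [h1, norm_star]
      exact hr1
    exact (est3 hη hη1 hK0 hp' hw1 (hK x hx) hl hr hx'.le hw4).trans_lt hη2

end Pool.Agent.Helper4.AE.HER
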